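import Pool.Agent.TH152.BB.Stm

/-! BB-BDD: an infinite family of bounded height has a coefficient with infinitely many values. -/

set_option autoImplicit false

open FF

namespace Pool.Agent.TH152.BB

open Pool.Agent.W603.LV Pool.Agent.W603.PV

private theorem bdd_hgt_sub {k L : Type} [Field k] [CharZero k] [Field L] [Algebra k L]
    [IsFF k L] (f g : L) (hfg : f - g ≠ 0) : hgt k (f - g) ≤ hgt k f + hgt k g := by
  obtain ⟨T, hT⟩ := exists_supp (k := k) (Finset.univ : Finset (Fin 3)) ![f, g, f - g]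
  have h1 : ∀ P : Place k L, P.ord f ≠ 0 → P ∈ T := fun P => hT 0 (Finset.mem_univ _) P
  have h2 : ∀ P : Place k L, P.ord g ≠ 0 → P ∈ T := fun P => hT 1 (Finset.mem_univ _) P
  have h3 : ∀ P : Place k L, P.ord (f - g) ≠ 0 → P ∈ T := fun P => hT 2 (Finset.mem_univ _) P
  rw [hgt_finset _ T h1, hgt_finset _ T h2, hgt_finset _ T h3, ← Finset.sum_add_distrib]
  refine Finset.sum_le_sum fun P _ => ?_
  by_cases hf : f = 0
  · subst hf
    rw [zero_sub, P.ord_neg, P.ord_zero]
    omega
  by_cases hg : g = 0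
  · subst hg
    rw [sub_zero, P.ord_zero]
    omega
  have h := P.ord_sub hf hg hfg
  rcases min_le_iff.1 h with h | h <;> omega

private theorem bdd_ord_le {k L : Type} [Field k] [IsAlgClosed k] [CharZero k] [Field L]
    [Algebra k L] [IsFF k L] (c : Place k L) (u : L) : c.ord u ≤ hgt k u := by
  rw [← hgt_inv (k := k) u]
  obtain ⟨T, hT⟩ := exists_supp (k := k) (Finset.univ : Finset (Fin 1)) ![u⁻¹]
  have h1 : ∀ P : Place k L, P.ord u⁻¹ ≠ 0 → P ∈ T := fun P => hT 0 (Finset.mem_univ _) P
  by_cases h0 : c.ord u = 0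
  · rw [h0]; exact hgt_nonneg _
  · have hc : c ∈ T := h1 c (by rw [c.ord_inv]; omega)
    rw [hgt_finset _ T h1]
    have h5 := Finset.single_le_sum (f := fun P : Place k L => max (-P.ord u⁻¹) 0)
      (fun P _ => le_max_right _ _) hc
    refine le_trans ?_ h5
    simp only [c.ord_inv]
    omega

theorem bdd_all : S_BDD := by
  intro k L _ _ _ _ _ _ c φ hφC hφ N h B hinj hreg hB
  by_contra hcon
  push Not at hcon
  -- all coefficients at nonpositive places vanish
  have hz : ∀ (m : ℕ) (j : Fin N) (i : ℤ), i ≤ 0 → (φ (h m j)).coeff i = 0 := by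
    intro m j i hi
    rcases hreg m j with h0 | h0
    · rw [h0, map_zero]; rfl
    · by_cases hz : h m j = 0
      · rw [hz, map_zero]; rfl
      · apply HahnSeries.coeff_eq_zero_of_lt_order
        rw [hφ _ hz]; omega
  set R : ℤ := 2 * max B 0 + 1 with hR
  let I := {i : ℤ // i ∈ Finset.Icc 1 R}
  have hI : Finite I := inferInstanceAs (Finite {i : ℤ // i ∈ Finset.Icc 1 R})
  let F : ℕ → (Fin N × I → k) := fun m x => (φ (h m x.1)).coeff x.2.1
  have hfin : (Set.range F).Finite := by
    refine (Set.Finite.pi' (t := fun x : Fin N × I => Set.range fun m => (φ (h m x.1)).coeff x.2.1)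
      (fun x => hcon x.1 x.2.1)).subset ?_
    rintro _ ⟨m, rfl⟩ x
    exact ⟨m, rfl⟩
  obtain ⟨m, m', hmm, hFF⟩ : ∃ m m', m ≠ m' ∧ F m = F m' := by
    have hni : ¬ Function.Injective F := by
      intro hi
      exact Set.infinite_range_of_injective hi hfin
    rw [Function.Injective] at hni
    push Not at hni
    obtain ⟨a, b, h1, h2⟩ := hni
    exact ⟨a, b, h2, h1⟩
  obtain ⟨j, hj⟩ : ∃ j, h m j ≠ h m' j := by
    by_contra hall
    push Not at hall
    exact hmm (hinj (funext hall))
  have hu : h m j - h m' j ≠ 0 := sub_ne_zero.2 hj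
  have hco : ∀ i ≤ R, (φ (h m j - h m' j)).coeff i = 0 := by
    intro i hi
    rw [map_sub, HahnSeries.coeff_sub]
    by_cases h1 : i ≤ 0
    · rw [hz m j i h1, hz m' j i h1, sub_zero]
    · have := congrFun hFF (j, ⟨i, Finset.mem_Icc.2 ⟨by omega, hi⟩⟩)
      simp only [F] at this
      rw [this, sub_self]
  have hφu : φ (h m j - h m' j) ≠ 0 := by
    intro h0
    exact hu (φ.injective (by rw [h0, map_zero]))
  have hord : R < c.ord (h m j - h m' j) := by
    rw [← hφ _ hu]
    by_contra hle
    push Not at hle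
    exact HahnSeries.coeff_order_eq_zero.not.2 hφu (hco _ hle)
  have h1 := bdd_ord_le c (h m j - h m' j)
  have h2 := bdd_hgt_sub (k := k) (h m j) (h m' j) hu
  have h3 := hB m j
  have h4 := hB m' j
  have h5 : B ≤ max B 0 := le_max_left _ _
  omega

end Pool.Agent.TH152.BB
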